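import Pool.Agent.S16995
import Mathlib

set_option autoImplicit false

namespace Pool.Agent.Helper87.PD

open Finset Filter Pool.Agent.S16995

/-- One stage of the approximation, uniform in the set, in squares of the integer lattice and with a
quantitative bound for the popularity of the differences. -/
lemma stage (N : ℕ) :
    ∃ M : ℕ, 0 < M ∧ ∀ k : ℤ, ∃ V : Finset (ℤ × ℤ), (∀ v ∈ V, v.1 * v.2 = M * k) ∧
      ∃ n1 : ℕ, ∀ (A : Set (ℤ × ℤ)) (ε η : ℝ), 0 < ε → 0 ≤ η →
      ∀ (a b : ℤ) (n : ℕ), n1 ≤ n →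
        ε * ((n : ℝ) * n) ≤
          (({p : ℤ × ℤ | p ∈ A ∧ a < p.1 ∧ p.1 ≤ a + n ∧ b < p.2 ∧ p.2 ≤ b + n}.ncard : ℕ) : ℝ) →
        (∀ v ∈ V, (({p : ℤ × ℤ | (p ∈ A ∧ p + v ∈ A) ∧ a < p.1 ∧ p.1 ≤ a + n ∧ b < p.2 ∧
          p.2 ≤ b + n}.ncard : ℕ) : ℝ) ≤ η * ((n : ℝ) * n)) →
    ∃ Φ : ℚ × ℚ → ℝ, (∀ v, 0 ≤ Φ v ∧ Φ v ≤ 1) ∧ Φ 0 = 1 ∧ (∀ v, Φ (-v) = Φ v) ∧
      (∀ (ι : Type) (s : Finset ι) (v : ι → ℚ × ℚ) (z : ι → ℝ),
        0 ≤ ∑ i ∈ s, ∑ j ∈ s, z i * z j * Φ (v i - v j)) ∧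
      (∀ q : ℕ, 0 < q → q ≤ N → ∀ a b : ℚ,
        |Φ ((q : ℚ) * a, b / q) - Φ (a, b)| ≤ 1 / ((N : ℝ) + 1)) ∧
      (∀ K c : ℕ, K * c ≤ N → ε / (1 + 3 / ((N : ℝ) + 1)) ^ 2 * (K : ℝ) ^ 2 ≤
        ∑ i ∈ range K, ∑ j ∈ range K,
          Φ ((c : ℚ) * ((i : ℚ) - j), (c : ℚ) * ((i : ℚ) - j))) ∧
      Φ (1, 1) ≤ η / ε := by
  classical
  obtain ⟨n0, r, hn0, hr, hfol⟩ := folner (1 / ((N : ℝ) + 1)) (by positivity) N
  set L : ℕ := ∏ i, r i with hL
  have hLpos : 0 < L := Finset.prod_pos (fun i _ => hr i)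
  have hrL : ∀ i, r i ∣ L := fun i => Finset.dvd_prod_of_mem _ (Finset.mem_univ i)
  refine ⟨L ^ 2, by positivity, ?_⟩
  intro k
  set W : Fin n0 → ℤ × ℤ := fun l => ((L : ℤ) * (r l : ℤ), k * ((L / r l : ℕ) : ℤ)) with hW
  have hLr : ∀ l, ((L / r l : ℕ) : ℚ) = (L : ℚ) / (r l : ℚ) := by
    intro l
    rw [Nat.cast_div (hrL l) (by exact_mod_cast (hr l).ne')]
  refine ⟨Finset.univ.image W, ?_, ?_⟩
  · intro v hv
    rw [Finset.mem_image] at hv
    obtain ⟨l, _, rfl⟩ := hv
    have h1 : ((r l : ℕ) : ℤ) * ((L / r l : ℕ) : ℤ) = (L : ℤ) := by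
      exact_mod_cast Nat.mul_div_cancel' (hrL l)
    simp only [hW]
    push_cast
    push_cast at h1
    linear_combination (k * (L : ℤ)) * h1
  refine ⟨(N + 1) * (N * L * L + N * k.natAbs * L + 1), ?_⟩
  intro A ε η hε hη a b n hn hcard hpop
  -- the finite set
  set S0 : Finset (ℤ × ℤ) := ((Finset.Ioc a (a + n)) ×ˢ (Finset.Ioc b (b + n))).filter (· ∈ A)
    with hS0
  have hS0c : {p : ℤ × ℤ | p ∈ A ∧ a < p.1 ∧ p.1 ≤ a + n ∧ b < p.2 ∧ p.2 ≤ b + n}.ncard
      = S0.card := by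
    rw [← Set.ncard_coe_finset]
    congr 1
    ext p
    simp only [hS0, Finset.coe_filter, Finset.mem_product, Finset.mem_Ioc, Set.mem_ofPred_eq]
    tauto
  set cst : ℤ × ℤ → ℚ × ℚ := fun p => ((p.1 : ℚ), (p.2 : ℚ)) with hcst
  have hinj : Function.Injective cst := by
    intro p q hpq
    simp only [hcst, Prod.mk.injEq, Int.cast_inj] at hpq
    exact Prod.ext hpq.1 hpq.2
  set B : Finset (ℚ × ℚ) := S0.image cst with hB
  have hBc : B.card = S0.card := Finset.card_image_of_injective _ hinj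
  rw [hS0c, ← hBc] at hcard
  have hn1 : 0 < n := by
    have : 0 < (N + 1) * (N * L * L + N * k.natAbs * L + 1) := by positivity
    omega
  have hBpos : (0:ℝ) < B.card := by
    have : 0 < ε * ((n:ℝ) * n) := by positivity
    linarith
  have hBne : B.Nonempty := by
    rw [← Finset.card_pos]; exact_mod_cast hBpos
  have hn0' : (0:ℝ) < n0 := by exact_mod_cast hn0
  have hn0ne : (n0:ℝ) ≠ 0 := hn0'.ne'
  set T : Fin n0 → ℚ × ℚ → ℚ × ℚ := fun l v => ((L:ℚ) * (r l : ℚ) * v.1, (k:ℚ) * L * v.2 / (r l : ℚ))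
    with hT
  have hTsub : ∀ l v w, T l (v - w) = T l v - T l w := by
    intro l v w
    simp only [hT, Prod.fst_sub, Prod.snd_sub, Prod.mk_sub_mk]
    ext
    · simp only; ring
    · simp only; ring
  refine ⟨fun v => (∑ l, corr B (T l v)) / n0, ?_, ?_, ?_, ?_, ?_, ?_, ?_⟩
  · intro v
    constructor
    · apply div_nonneg (Finset.sum_nonneg (fun l _ => corr_nonneg _ _)) hn0'.le
    · rw [div_le_one hn0']
      calc ∑ l, corr B (T l v) ≤ ∑ l : Fin n0, (1:ℝ) := Finset.sum_le_sum (fun l _ => corr_le_one _ _)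
        _ = n0 := by simp
  · have : ∀ l ∈ (Finset.univ : Finset (Fin n0)), corr B (T l 0) = 1 := by
      intro l _
      have : T l 0 = 0 := by simp [hT]
      rw [this, corr_zero B hBne]
    simp only
    rw [Finset.sum_congr rfl this]
    simp [hn0ne]
  · intro v
    simp only
    congr 1
    apply Finset.sum_congr rfl
    intro l _
    rw [← corr_neg]
    congr 1
    simp only [hT, Prod.fst_neg, Prod.snd_neg]
    ext
    · simp
    · simp; ring
  · intro ι s v z
    have : ∑ i ∈ s, ∑ j ∈ s, z i * z j * ((∑ l, corr B (T l (v i - v j))) / n0) =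
        (∑ l, ∑ i ∈ s, ∑ j ∈ s, z i * z j * corr B (T l (v i) - T l (v j))) / n0 := by
      rw [Finset.sum_comm (s := Finset.univ), Finset.sum_div]
      apply Finset.sum_congr rfl
      intro i _
      rw [Finset.sum_comm (s := Finset.univ), Finset.sum_div]
      apply Finset.sum_congr rfl
      intro j _
      rw [← Finset.mul_sum, mul_div_assoc]
      simp only [hTsub]
    simp only
    rw [this]
    apply div_nonneg _ hn0'.le
    exact Finset.sum_nonneg (fun l _ => corr_pd B s (fun i => T l (v i)) z)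
  · intro q hq hqN x y
    have := hfol q hq hqN (fun t => corr B ((L:ℚ) * (t:ℚ) * x, (k:ℚ) * L * y / (t:ℚ)))
      (fun t => abs_le.mpr ⟨by linarith [corr_nonneg B ((L:ℚ) * (t:ℚ) * x, (k:ℚ) * L * y / (t:ℚ))],
        corr_le_one _ _⟩)
    simp only [hT]
    convert this using 6 with l _
    have hq0 : (q:ℚ) ≠ 0 := by exact_mod_cast hq.ne'
    have hr0 : (r l:ℚ) ≠ 0 := by exact_mod_cast (hr l).ne'
    ext
    · simp only; push_cast; ring
    · simp only; push_cast; field_simp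
  · intro K c hKc
    simp only
    rcases Nat.eq_zero_or_pos K with hK0 | hKpos
    · subst hK0; simp
    have key : ∀ l : Fin n0, ε / (1 + 3 / ((N : ℝ) + 1)) ^ 2 * (K : ℝ) ^ 2 ≤
        ∑ i ∈ range K, ∑ j ∈ range K, corr B (T l ((c : ℚ) * ((i : ℚ) - j), (c : ℚ) * ((i : ℚ) - j))) := by
      intro l
      obtain ⟨e, he⟩ := hrL l
      have hr0 : (r l:ℚ) ≠ 0 := by exact_mod_cast (hr l).ne'
      -- enlarged rectangle
      set X : ℕ := N * L * L with hX
      set Y : ℕ := N * k.natAbs * L with hY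
      set U : Finset (ℚ × ℚ) := ((Finset.Icc (a - X) (a + n + X)) ×ˢ
        (Finset.Icc (b - Y) (b + n + Y))).image (fun p : ℤ × ℤ => ((p.1 : ℚ), (p.2 : ℚ))) with hU
      have hUne : U.Nonempty := by
        refine ⟨((a : ℚ), (b : ℚ)), ?_⟩
        rw [hU, Finset.mem_image]
        refine ⟨(a, b), ?_, rfl⟩
        rw [Finset.mem_product, Finset.mem_Icc, Finset.mem_Icc]
        refine ⟨⟨?_, ?_⟩, ⟨?_, ?_⟩⟩ <;> simp only <;> omega
      have hUcard : (U.card : ℝ) ≤ ((n:ℝ) + 2 * X + 1) * ((n:ℝ) + 2 * Y + 1) := by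
        have h1 : U.card ≤ (n + 2 * X + 1) * (n + 2 * Y + 1) := by
          refine le_trans Finset.card_image_le ?_
          rw [Finset.card_product, Int.card_Icc, Int.card_Icc]
          apply Nat.mul_le_mul
          · omega
          · omega
        exact_mod_cast h1
      have hmem : ∀ i ∈ range K, ∀ u ∈ B, u - T l ((c:ℚ) * i, (c:ℚ) * i) ∈ U := by
        intro i hi u hu
        rw [hB, Finset.mem_image] at hu
        obtain ⟨p, hp, rfl⟩ := hu
        rw [hS0, Finset.mem_filter, Finset.mem_product, Finset.mem_Ioc, Finset.mem_Ioc] at hp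
        obtain ⟨⟨⟨p1, p2⟩, ⟨p3, p4⟩⟩, _⟩ := hp
        rw [hU, Finset.mem_image]
        have hci : c * i ≤ N := by
          have : i ≤ K := (Finset.mem_range.mp hi).le
          calc c * i ≤ c * K := Nat.mul_le_mul_left _ this
            _ = K * c := by ring
            _ ≤ N := hKc
        have hrle : r l ≤ L := Nat.le_of_dvd hLpos (hrL l)
        have hele : e ≤ L := by
          rw [he]; exact Nat.le_mul_of_pos_left _ (hr l)
        have hx : L * r l * (c * i) ≤ X := by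
          rw [hX]
          calc L * r l * (c * i) ≤ L * L * N := by gcongr
            _ = N * L * L := by ring
        have hy : k.natAbs * e * (c * i) ≤ Y := by
          rw [hY]
          calc k.natAbs * e * (c * i) ≤ k.natAbs * L * N := by gcongr
            _ = N * k.natAbs * L := by ring
        refine ⟨(p.1 - (L * r l * (c * i) : ℕ), p.2 - k * (e * (c * i) : ℕ)), ?_, ?_⟩
        · rw [Finset.mem_product, Finset.mem_Icc, Finset.mem_Icc]
          have hyabs : |k * ((e * (c * i) : ℕ) : ℤ)| ≤ (Y : ℤ) := by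
            rw [abs_mul, Nat.abs_cast, ← Int.natCast_natAbs]
            have : k.natAbs * (e * (c * i)) ≤ Y := by rw [← mul_assoc]; exact hy
            exact_mod_cast this
          rw [abs_le] at hyabs
          obtain ⟨hy1, hy2⟩ := hyabs
          refine ⟨⟨?_, ?_⟩, ⟨?_, ?_⟩⟩
          · simp only; omega
          · simp only; omega
          · simp only; omega
          · simp only; omega
        · have hLe : (L:ℚ) = r l * e := by exact_mod_cast he
          simp only [hT, hcst, Prod.mk_sub_mk]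
          ext
          · simp only; push_cast; ring
          · simp only; push_cast
            rw [hLe]; field_simp
      have hd := corr_dens B hBne (range K) (fun i => T l ((c:ℚ) * i, (c:ℚ) * i)) U hmem hUne
      have e1 : ∑ i ∈ range K, ∑ j ∈ range K,
          corr B (T l ((c : ℚ) * ((i : ℚ) - j), (c : ℚ) * ((i : ℚ) - j))) =
          ∑ i ∈ range K, ∑ j ∈ range K,
          corr B (T l ((c:ℚ) * i, (c:ℚ) * i) - T l ((c:ℚ) * j, (c:ℚ) * j)) := by
        apply Finset.sum_congr rfl; intro i _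
        apply Finset.sum_congr rfl; intro j _
        rw [← hTsub]
        simp only [Prod.mk_sub_mk, mul_sub]
      rw [e1]
      refine le_trans ?_ hd
      rw [Finset.card_range]
      have hUpos : (0:ℝ) < U.card := by exact_mod_cast hUne.card_pos
      rw [mul_comm, mul_div_assoc]
      apply mul_le_mul_of_nonneg_left _ (by positivity)
      rw [div_le_div_iff₀ (by positivity) hUpos]
      -- ε * |U| ≤ |B| * (1+3/(N+1))^2
      have hN1 : (0:ℝ) < (N:ℝ) + 1 := by positivity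
      have hmX : ((N:ℝ) + 1) * (X + Y + 1) ≤ n := by
        have : (N + 1) * (X + Y + 1) ≤ n := hn
        exact_mod_cast this
      have hXn : (0:ℝ) ≤ X := by positivity
      have hYn : (0:ℝ) ≤ Y := by positivity
      have g1 : (n:ℝ) + 2 * X + 1 ≤ n * (1 + 3 / ((N:ℝ) + 1)) := by
        have : 2 * (X:ℝ) + 1 ≤ n * (3 / ((N:ℝ) + 1)) := by
          rw [← mul_div_assoc, le_div_iff₀ hN1]
          nlinarith
        linarith
      have g2 : (n:ℝ) + 2 * Y + 1 ≤ n * (1 + 3 / ((N:ℝ) + 1)) := by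
        have : 2 * (Y:ℝ) + 1 ≤ n * (3 / ((N:ℝ) + 1)) := by
          rw [← mul_div_assoc, le_div_iff₀ hN1]
          nlinarith
        linarith
      calc ε * (U.card:ℝ) ≤ ε * (((n:ℝ) + 2 * X + 1) * ((n:ℝ) + 2 * Y + 1)) := by gcongr
        _ ≤ ε * ((n * (1 + 3 / ((N:ℝ) + 1))) * (n * (1 + 3 / ((N:ℝ) + 1)))) := by gcongr
        _ = (ε * ((n:ℝ) * n)) * (1 + 3 / ((N:ℝ) + 1)) ^ 2 := by ring
        _ ≤ (B.card:ℝ) * (1 + 3 / ((N:ℝ) + 1)) ^ 2 := by gcongr
    have : ∑ i ∈ range K, ∑ j ∈ range K,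
        (∑ l, corr B (T l ((c : ℚ) * ((i : ℚ) - j), (c : ℚ) * ((i : ℚ) - j)))) / n0 =
        (∑ l, ∑ i ∈ range K, ∑ j ∈ range K,
          corr B (T l ((c : ℚ) * ((i : ℚ) - j), (c : ℚ) * ((i : ℚ) - j)))) / n0 := by
      rw [Finset.sum_comm (s := Finset.univ), Finset.sum_div]
      apply Finset.sum_congr rfl
      intro i _
      rw [Finset.sum_comm (s := Finset.univ), Finset.sum_div]
    rw [this, le_div_iff₀ hn0']
    calc _ = ∑ l : Fin n0, (ε / (1 + 3 / ((N : ℝ) + 1)) ^ 2 * (K : ℝ) ^ 2) := by simp; ring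
      _ ≤ _ := Finset.sum_le_sum (fun l _ => key l)
  · have hc : ∀ l ∈ (Finset.univ : Finset (Fin n0)), corr B (T l (1, 1)) ≤ η / ε := by
      intro l _
      have hWT : T l (1, 1) = cst (W l) := by
        simp only [hT, hcst, hW]
        ext
        · simp
        · simp only [Int.cast_mul, Int.cast_natCast, mul_one]; rw [hLr l]; ring
      have hfil : ((B.filter (fun u => u + T l (1, 1) ∈ B)).card : ℝ) ≤ η * ((n : ℝ) * n) := by
        refine le_trans ?_ (hpop (W l) (Finset.mem_image_of_mem _ (Finset.mem_univ l)))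
        have hfin : {p : ℤ × ℤ | (p ∈ A ∧ p + W l ∈ A) ∧ a < p.1 ∧ p.1 ≤ a + n ∧ b < p.2 ∧
            p.2 ≤ b + n}.Finite := by
          apply Set.Finite.subset ((Finset.Ioc a (a + n)) ×ˢ (Finset.Ioc b (b + n))).finite_toSet
          intro p hp
          rw [Set.mem_ofPred_eq] at hp
          rw [Finset.mem_coe, Finset.mem_product, Finset.mem_Ioc, Finset.mem_Ioc]
          exact ⟨⟨hp.2.1, hp.2.2.1⟩, ⟨hp.2.2.2.1, hp.2.2.2.2⟩⟩
        have hsub : (B.filter (fun u => u + T l (1, 1) ∈ B)) ⊆ (hfin.toFinset).image cst := by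
          intro u hu
          rw [Finset.mem_filter] at hu
          obtain ⟨hu1, hu2⟩ := hu
          rw [hB, Finset.mem_image] at hu1 hu2
          obtain ⟨p, hp, rfl⟩ := hu1
          obtain ⟨p', hp', hpp⟩ := hu2
          rw [Finset.mem_image]
          refine ⟨p, ?_, rfl⟩
          rw [Set.Finite.mem_toFinset, Set.mem_ofPred_eq]
          have hadd : p' = p + W l := by
            apply hinj
            rw [hpp, hWT]
            simp [hcst]
          rw [hS0, Finset.mem_filter, Finset.mem_product, Finset.mem_Ioc, Finset.mem_Ioc] at hp hp'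
          rw [← hadd]
          exact ⟨⟨hp.2, hp'.2⟩, hp.1.1.1, hp.1.1.2, hp.1.2.1, hp.1.2.2⟩
        have h2 := le_trans (Finset.card_le_card hsub) Finset.card_image_le
        rw [← Set.ncard_eq_toFinset_card _ hfin] at h2
        exact_mod_cast h2
      unfold corr
      rw [div_le_div_iff₀ hBpos hε]
      calc _ ≤ (η * ((n : ℝ) * n)) * ε := by gcongr
        _ = η * (ε * ((n : ℝ) * n)) := by ring
        _ ≤ _ := by gcongr
    simp only
    rw [div_le_iff₀ hn0']
    calc _ ≤ ∑ l : Fin n0, η / ε := Finset.sum_le_sum hc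
      _ = _ := by simp; ring

end Pool.Agent.Helper87.PD
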